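import Pool.Agent.Helper74.C3.Final

/-!
# Characteristic three: multilinear polynomials with a value of nonzero trace are onto on
`3 x 3` matrices
-/

namespace Pool.Agent.Results.MP_422cbf_al.CharThree

universe u

/-- The value at the square matrices `x 0, …, x (m-1)` of the multilinear noncommutative
polynomial `∑ σ, c σ • X_{σ 0} X_{σ 1} ⋯ X_{σ (m-1)}`. -/
noncomputable def value {K : Type u} [Field K] {m n : ℕ} (c : Equiv.Perm (Fin m) → K)
    (x : Fin m → Matrix (Fin n) (Fin n) K) : Matrix (Fin n) (Fin n) K :=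
  ∑ σ : Equiv.Perm (Fin m), c σ • (List.ofFn fun k => x (σ k)).prod

/-- Let `K` be algebraically closed of characteristic three and let `p` be a multilinear
polynomial. If some value of `p` on `M_3(K)` has nonzero trace (for example, if the image of `p`
is Zariski dense) then the image of `p` is all of `M_3(K)`. -/
theorem result {K : Type u} [Field K] [IsAlgClosed K] [CharP K 3] {m : ℕ}
    (c : Equiv.Perm (Fin m) → K)
    (htr : ∃ x : Fin m → Matrix (Fin 3) (Fin 3) K, Matrix.trace (value c x) ≠ 0)
    (A : Matrix (Fin 3) (Fin 3) K) :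
    ∃ x : Fin m → Matrix (Fin 3) (Fin 3) K, value c x = A := by
  have h : ∀ x : Fin m → Matrix (Fin 3) (Fin 3) K,
      Pool.Agent.H24ML.evalML K c x = value c x := fun x => by
    rw [Pool.Agent.H24ML.evalML_apply]; rfl
  obtain ⟨x0, hx0⟩ := htr
  obtain ⟨x, hx⟩ := Pool.Agent.H74C3.char3 c ⟨x0, by rw [h]; exact hx0⟩ A
  exact ⟨x, by rw [← h]; exact hx⟩

end Pool.Agent.Results.MP_422cbf_al.CharThree
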