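import Pool.Agent.Helper88.KL.Fin4

/-!
# Dense images of multilinear polynomials contain the matrices with distinct eigenvalues
-/

namespace Pool.Agent.Results.MP_422cbf_al.DistinctEigenvalues

universe u

/-- The value at the square matrices `x 0, …, x (m-1)` of the multilinear noncommutative
polynomial `∑ σ, c σ • X_{σ 0} X_{σ 1} ⋯ X_{σ (m-1)}`. -/
noncomputable def value {K : Type u} [Field K] {m n : ℕ} (c : Equiv.Perm (Fin m) → K)
    (x : Fin m → Matrix (Fin n) (Fin n) K) : Matrix (Fin n) (Fin n) K :=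
  ∑ σ : Equiv.Perm (Fin m), c σ • (List.ofFn fun k => x (σ k)).prod

/-- Let `K` be algebraically closed, of any characteristic, and let `p` be a multilinear
polynomial whose image on `M_3(K)` is Zariski dense. Then the characteristic polynomial of every
matrix `A` which is not nilpotent is the characteristic polynomial of a value of `p`, and `A` itself
is a value of `p` if its characteristic polynomial is separable (three distinct eigenvalues),
provided that one of the following holds: `trace A ≠ 0`; or the coefficient of `X` in the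
characteristic polynomial of `A` is zero; or some value of `p` has trace zero and a characteristic
polynomial with a nonzero coefficient of `X`; or `p` is not central on `M_2(K)`. -/
theorem result {K : Type u} [Field K] [IsAlgClosed K] {m : ℕ} (c : Equiv.Perm (Fin m) → K)
    (hd : ∀ f : MvPolynomial (Fin 3 × Fin 3) K, f ≠ 0 →
      ∃ x : Fin m → Matrix (Fin 3) (Fin 3) K,
        MvPolynomial.eval (fun q => value c x q.1 q.2) f ≠ 0)
    (A : Matrix (Fin 3) (Fin 3) K) (hA : A.charpoly ≠ Polynomial.X ^ 3)
    (h : A.trace ≠ 0 ∨ A.charpoly.coeff 1 = 0 ∨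
      (∃ x : Fin m → Matrix (Fin 3) (Fin 3) K,
        (value c x).trace = 0 ∧ (value c x).charpoly.coeff 1 ≠ 0) ∨
      ∃ x : Fin m → Matrix (Fin 2) (Fin 2) K,
        ¬ ∃ a : K, value c x = a • (1 : Matrix (Fin 2) (Fin 2) K)) :
    (∃ x : Fin m → Matrix (Fin 3) (Fin 3) K, (value c x).charpoly = A.charpoly) ∧
      (A.charpoly.Separable → ∃ x : Fin m → Matrix (Fin 3) (Fin 3) K, value c x = A) := by
  have hv : ∀ x : Fin m → Matrix (Fin 3) (Fin 3) K, value c x = Pool.Agent.H24ML.evalML K c x := by
    intro x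
    rw [Pool.Agent.H24ML.evalML_apply]
    rfl
  simp only [hv] at hd h ⊢
  simp only [Pool.Agent.H88KL.charpoly_coeff_one] at h
  have hA' : A.trace ≠ 0 ∨ Pool.Agent.H24ML.c2 A ≠ 0 ∨ A.det ≠ 0 := by
    by_contra hne
    push Not at hne
    apply hA
    rw [Pool.Agent.H88KL.charpoly_eq, hne.1, hne.2.1, hne.2.2]
    simp
  obtain ⟨x, h1, h2, h3⟩ := Pool.Agent.H88KL.main88 c hd A hA' (by
    rcases h with h | h | h | ⟨x, hx⟩
    · exact Or.inl h
    · exact Or.inr (Or.inl h)
    · exact Or.inr (Or.inr (Or.inl h))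
    · refine Or.inr (Or.inr (Or.inr ⟨x, ?_⟩))
      rintro ⟨a, ha⟩
      exact hx ⟨a, ha⟩)
  have hcp : (Pool.Agent.H24ML.evalML K c x).charpoly = A.charpoly := by
    rw [Pool.Agent.H88KL.charpoly_eq, Pool.Agent.H88KL.charpoly_eq, h1, h2, h3]
  refine ⟨⟨x, hcp⟩, fun hsep => ?_⟩
  exact Pool.Agent.H88KL.value_conj c x A
    (Pool.Agent.H88KL.sim_of_separable _ _ hcp (by rw [hcp]; exact hsep))

end Pool.Agent.Results.MP_422cbf_al.DistinctEigenvalues
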