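import Pool.Agent.Helper24.ML.UT

/-!
# Multilinear polynomials with a slot of rank at least six are onto on `3 x 3` matrices
-/

namespace Pool.Agent.Results.MP_422cbf_al.RankSix

universe u

/-- The value at the square matrices `x 0, …, x (m-1)` of the multilinear noncommutative
polynomial `∑ σ, c σ • X_{σ 0} X_{σ 1} ⋯ X_{σ (m-1)}`. -/
noncomputable def value {K : Type u} [Field K] {m n : ℕ} (c : Equiv.Perm (Fin m) → K)
    (x : Fin m → Matrix (Fin n) (Fin n) K) : Matrix (Fin n) (Fin n) K :=
  ∑ σ : Equiv.Perm (Fin m), c σ • (List.ofFn fun k => x (σ k)).prod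

/-- Let `K` be algebraically closed of characteristic different from three, let `p` be a
multilinear polynomial whose trace does not vanish identically on `M_3(K)`, and assume that
`p` is not an identity of the upper triangular `2 x 2` matrices, or more generally that some
partial linear map `z ↦ p(a_1, …, z, …, a_m)` on `M_3(K)` has rank at least six. Then
`p` is onto on `M_3(K)`. -/
theorem result {K : Type u} [Field K] [IsAlgClosed K] (h3 : (3 : K) ≠ 0) {m : ℕ} (hm : 0 < m)
    (c : Equiv.Perm (Fin m) → K)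
    (htr : ∃ x : Fin m → Matrix (Fin 3) (Fin 3) K, Matrix.trace (value c x) ≠ 0)
    (h : (∃ (i : Fin m) (a : Fin m → Matrix (Fin 3) (Fin 3) K)
            (z : Fin 6 → Matrix (Fin 3) (Fin 3) K),
            LinearIndependent K fun k => value c (Function.update a i (z k))) ∨
          (∃ y : Fin m → Matrix (Fin 2) (Fin 2) K, (∀ j, y j 1 0 = 0) ∧ value c y ≠ 0))
    (A : Matrix (Fin 3) (Fin 3) K) :
    ∃ x : Fin m → Matrix (Fin 3) (Fin 3) K, value c x = A := by
  have key : ∀ (i : Fin m) (a : Fin m → Matrix (Fin 3) (Fin 3) K)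
      (z : Fin 6 → Matrix (Fin 3) (Fin 3) K),
      (LinearIndependent K fun k => value c (Function.update a i (z k))) →
      ∃ x : Fin m → Matrix (Fin 3) (Fin 3) K, value c x = A := by
    intro i a z hz
    obtain ⟨x0, hx0⟩ := htr
    obtain ⟨x, hx⟩ := Pool.Agent.H24ML.rank_six h3 c
      ⟨x0, by rw [Pool.Agent.H24ML.ev_eq]; exact hx0⟩
      ⟨i, a, Pool.Agent.H24ML.six_of_indep c i a z hz⟩ A
    exact ⟨x, by rw [Pool.Agent.H24ML.ev_eq] at hx; exact hx⟩
  rcases h with ⟨i, a, z, hz⟩ | ⟨y, hy, hy'⟩
  · exact key i a z hz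
  · obtain ⟨i, a, z, hz⟩ := Pool.Agent.H24ML.exists_six hm c y hy hy'
    exact key i a z hz

end Pool.Agent.Results.MP_422cbf_al.RankSix
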